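import Pool.Agent.Run7.h568.DG.CIface

/-! Piece `C_dir` of helper568's project DG (part 2). -/

open Real Matrix Filter Topology

noncomputable section

namespace Run7.h544.DG.CDir

open Run7.h568.DG

variable {D : Type} [Fintype D] [DecidableEq D]

theorem rho_sgio (T : Tri D) (d : D) : T.rho (T.sg (T.io d)) = d := by
  simp [Tri.rho, T.sg3, T.io_io]

theorem rho_sg (T : Tri D) (d : D) : T.rho (T.sg d) = T.io d := by
  unfold Tri.rho; rw [T.sg3]

theorem sgio_rho (T : Tri D) (d : D) : T.sg (T.io (T.rho d)) = d := by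
  simp [Tri.rho, T.sg3, T.io_io]

theorem rho_inj (T : Tri D) : Function.Injective T.rho := by
  intro a b h
  rw [← sgio_rho T a, h, sgio_rho T b]

theorem rho_per (T : Tri D) (d : D) : d ∈ Function.periodicPts T.rho := by
  exact (rho_inj T).mem_periodicPts d

theorem rho_pos (T : Tri D) (d : D) : 0 < Function.minimalPeriod T.rho d :=
  Function.minimalPeriod_pos_of_mem_periodicPts (rho_per T d)

theorem sum_shift (g : ℕ → ℝ) (p : ℕ) (h : g p = g 0) :
    ∑ j ∈ Finset.range p, g (j + 1) = ∑ j ∈ Finset.range p, g j := by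
  have h1 := Finset.sum_range_succ g p
  have h2 := Finset.sum_range_succ' g p
  linarith

/-- Coboundaries. -/
theorem cobg (T : Tri D) (x : D → ℝ) (h2 : ∀ d, T.cyc x d = 0) :
    ∃ q : D → ℝ, ∀ d, q (T.sg (T.io d)) - q d = x d := by
  refine ⟨fun d => -(1 / (Function.minimalPeriod T.rho d : ℝ)) *
      ∑ j ∈ Finset.range (Function.minimalPeriod T.rho d), (j : ℝ) * x (T.rho^[j + 1] d), ?_⟩
  have key : ∀ u, -(1 / (Function.minimalPeriod T.rho u : ℝ)) *
        ∑ j ∈ Finset.range (Function.minimalPeriod T.rho u), (j : ℝ) * x (T.rho^[j + 1] u) -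
        -(1 / (Function.minimalPeriod T.rho (T.rho u) : ℝ)) *
        ∑ j ∈ Finset.range (Function.minimalPeriod T.rho (T.rho u)),
          (j : ℝ) * x (T.rho^[j + 1] (T.rho u)) = x (T.rho u) := by
    intro u
    rw [Function.minimalPeriod_apply (rho_per T u)]
    set p := Function.minimalPeriod T.rho u with hp
    have hpp : (0 : ℝ) < p := by exact_mod_cast rho_pos T u
    have hp' : Function.minimalPeriod T.rho (T.rho u) = p := by
      rw [Function.minimalPeriod_apply (rho_per T u)]
    set g : ℕ → ℝ := fun j => x (T.rho^[j] (T.rho u)) with hg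
    have hgp : g p = g 0 := by
      simp only [hg]
      rw [← hp', Function.iterate_minimalPeriod]
      simp
    have e1 : ∀ j, x (T.rho^[j + 1] u) = g j := by
      intro j; simp only [hg, Function.iterate_succ_apply]
    have e2 : ∀ j, x (T.rho^[j + 1] (T.rho u)) = g (j + 1) := by
      intro j; rfl
    have h0 : ∑ j ∈ Finset.range p, g j = 0 := by
      have := h2 (T.rho u)
      unfold Tri.cyc at this
      rw [hp'] at this
      exact this
    have h0' : ∑ j ∈ Finset.range p, g (j + 1) = 0 := by rw [sum_shift g p hgp, h0]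
    have e3 : ∑ j ∈ Finset.range p, (j : ℝ) * g (j + 1)
        = ∑ j ∈ Finset.range p, (j : ℝ) * g j + p * g p := by
      have a1 := Finset.sum_range_succ (fun j => (j : ℝ) * g j) p
      have a2 := Finset.sum_range_succ' (fun j => (j : ℝ) * g j) p
      have a3 : ∑ j ∈ Finset.range p, ((j + 1 : ℕ) : ℝ) * g (j + 1)
          = ∑ j ∈ Finset.range p, (j : ℝ) * g (j + 1) + ∑ j ∈ Finset.range p, g (j + 1) := by
        rw [← Finset.sum_add_distrib]
        refine Finset.sum_congr rfl fun j _ => ?_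
        push_cast; ring
      simp only [Nat.cast_zero, zero_mul, add_zero] at a2
      linarith
    simp only [e1, e2]
    rw [e3, hgp]
    have : g 0 = x (T.rho u) := rfl
    rw [this]
    field_simp
    ring
  intro d
  have h := key (T.sg (T.io d))
  rw [rho_sgio] at h
  linarith

theorem cyc_rho (T : Tri D) (x : D → ℝ) (d : D) : T.cyc x (T.rho d) = T.cyc x d := by
  unfold Tri.cyc
  rw [Function.minimalPeriod_apply (rho_per T d)]
  have := sum_shift (fun j => x (T.rho^[j] d)) (Function.minimalPeriod T.rho d) (by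
    simp only [Function.iterate_minimalPeriod]; rfl)
  rw [← this]
  rfl

theorem cyc_iter (T : Tri D) (x : D → ℝ) (d : D) (j : ℕ) :
    T.cyc x (T.rho^[j] d) = T.cyc x d := by
  induction j with
  | zero => rfl
  | succ k ih => rw [Function.iterate_succ_apply', cyc_rho, ih]

theorem cyc_add (T : Tri D) (x y : D → ℝ) (d : D) :
    T.cyc (fun e => x e + y e) d = T.cyc x d + T.cyc y d := by
  unfold Tri.cyc
  rw [← Finset.sum_add_distrib]

theorem cyc_ind (T : Tri D) (u : D) (l : ℝ) :
    T.cyc (fun e => if e = u then l else 0) u = l := by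
  unfold Tri.cyc
  rw [Finset.sum_eq_single 0]
  · simp
  · intro j hj hj0
    show (if T.rho^[j] u = u then l else 0) = 0
    rw [if_neg]
    intro h
    exact Function.not_isPeriodicPt_of_pos_of_lt_minimalPeriod hj0 (Finset.mem_range.1 hj) h
  · intro h
    exact absurd (Finset.mem_range.2 (rho_pos T u)) h

theorem cyc_ind0 (T : Tri D) (d u : D) (l : ℝ) (h : ∀ j, T.rho^[j] d ≠ u) :
    T.cyc (fun e => if e = u then l else 0) d = 0 := by
  unfold Tri.cyc
  exact Finset.sum_eq_zero fun j _ => if_neg (h j)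

theorem orb_symm (T : Tri D) (d e : D) (h : ∃ j, T.rho^[j] d = e) : ∃ j, T.rho^[j] e = d := by
  obtain ⟨j, hj⟩ := h
  set p := Function.minimalPeriod T.rho d with hp
  have hp0 : 0 < p := rho_pos T d
  refine ⟨p * j - j, ?_⟩
  rw [← hj, ← Function.iterate_add_apply]
  have : p * j - j + j = p * j := Nat.sub_add_cancel (Nat.le_mul_of_pos_left j hp0)
  rw [this]
  exact (Function.isPeriodicPt_minimalPeriod T.rho d).mul_const j

theorem orb_rho (T : Tri D) (d e : D) :
    (∃ j, T.rho^[j] (T.rho d) = e) ↔ (∃ j, T.rho^[j] d = e) := by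
  constructor
  · rintro ⟨j, hj⟩
    exact ⟨j + 1, by rw [Function.iterate_succ_apply]; exact hj⟩
  · rintro ⟨j, hj⟩
    obtain ⟨k, hk⟩ := orb_symm T d e ⟨j, hj⟩
    apply orb_symm
    exact ⟨k + 1, by rw [Function.iterate_succ_apply', hk]⟩

theorem dir : C_dir := by
  classical
  intro D _ _ T P p hp ε hε
  obtain ⟨hio, hl, hu, hoth⟩ := hp
  set l : ℝ := T.cyc p.1 P.v with hldef
  have huv' : ∀ j, T.rho^[j] P.v ≠ P.u := by
    intro j hj
    obtain ⟨k, hk⟩ := orb_symm T _ _ ⟨j, hj⟩
    exact P.huv k hk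
  have hne_uv : P.u ≠ P.v := fun h => P.huv 0 h
  have h_uiov : P.u ≠ T.io P.v := fun h => P.hne (by rw [h, T.io_io])
  -- the corrected shears
  set y : D → ℝ := fun e => p.1 e + ((if e = P.u then l else 0) + (if e = P.v then -l else 0))
    with hy
  have hcy : ∀ d, T.cyc y d = 0 := by
    intro d
    have e : T.cyc y d = T.cyc p.1 d + (T.cyc (fun e => if e = P.u then l else 0) d +
        T.cyc (fun e => if e = P.v then -l else 0) d) := by
      rw [← cyc_add, ← cyc_add]
    have eu : T.cyc y P.u = 0 := by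
      have : T.cyc y P.u = T.cyc p.1 P.u + (T.cyc (fun e => if e = P.u then l else 0) P.u +
        T.cyc (fun e => if e = P.v then -l else 0) P.u) := by
        rw [← cyc_add, ← cyc_add]
      rw [this, cyc_ind, cyc_ind0 T P.u P.v _ P.huv, hu]
      ring
    have ev : T.cyc y P.v = 0 := by
      have : T.cyc y P.v = T.cyc p.1 P.v + (T.cyc (fun e => if e = P.u then l else 0) P.v +
        T.cyc (fun e => if e = P.v then -l else 0) P.v) := by
        rw [← cyc_add, ← cyc_add]
      rw [this, cyc_ind, cyc_ind0 T P.v P.u _ huv', ← hldef]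
      ring
    by_cases h1 : ∃ j, T.rho^[j] d = P.u
    · obtain ⟨j, hj⟩ := h1
      rw [← cyc_iter T y d j, hj, eu]
    · by_cases h2 : ∃ j, T.rho^[j] d = P.v
      · obtain ⟨j, hj⟩ := h2
        rw [← cyc_iter T y d j, hj, ev]
      · push Not at h1 h2
        rw [e, cyc_ind0 T d P.u _ h1, cyc_ind0 T d P.v _ h2, hoth d h1 h2]
        ring
  obtain ⟨q0, hq0⟩ := cobg T y hcy
  -- normalize the twist
  set s : ℝ := p.2 + l - (q0 P.v - q0 P.u) with hs
  set q : D → ℝ := fun d => q0 d + (if ∃ j, T.rho^[j] d = P.v then s else 0) with hqdef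
  have hq : ∀ d, q (T.sg (T.io d)) - q d = y d := by
    intro d
    have h1 : (∃ j, T.rho^[j] (T.sg (T.io d)) = P.v) ↔ (∃ j, T.rho^[j] d = P.v) := by
      rw [← orb_rho T (T.sg (T.io d)), rho_sgio]
    simp only [hqdef, h1]
    linarith [hq0 d]
  have hqv : q P.v - q P.u - l = p.2 := by
    have h1 : ∃ j, T.rho^[j] P.v = P.v := ⟨0, rfl⟩
    have h2 : ¬ ∃ j, T.rho^[j] P.u = P.v := by push Not; exact P.huv
    simp only [hqdef, if_pos h1, if_neg h2, hs]
    ring
  -- shears from `q`
  have hx : ∀ d, d ≠ T.io P.u → d ≠ T.io P.v → q (T.sg d) - q (T.io d) = p.1 d := by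
    intro d h1 h2
    have h := hq (T.io d)
    rw [T.io_io] at h
    rw [h]
    have e1 : T.io d ≠ P.u := fun h => h1 (by rw [← h, T.io_io])
    have e2 : T.io d ≠ P.v := fun h => h2 (by rw [← h, T.io_io])
    simp only [hy, if_neg e1, if_neg e2, hio]
    ring
  have hyg : ∀ d, d ≠ P.u → d ≠ P.v → y d = p.1 d := by
    intro d h1 h2
    simp only [hy, if_neg h1, if_neg h2]; ring
  have hyu : y P.u = p.1 P.u + l := by
    simp only [hy, if_neg hne_uv, ite_true]; ring
  have hyv : y P.v = p.1 P.v - l := by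
    simp only [hy, if_neg hne_uv.symm, ite_true]; ring
  have hu_ne : P.u ≠ T.io P.u := fun h => T.io_ne P.u h.symm
  have hv_ne : P.v ≠ T.io P.v := fun h => T.io_ne P.v h.symm
  set N : D → ℝ := fun d => q d + q (T.sg d) with hN
  have hNio : ∀ d, ¬ P.Special d → N (T.io d) = N d := by
    intro d hd
    unfold Portal.Special at hd
    push Not at hd
    obtain ⟨d1, d2, d3, d4⟩ := hd
    have h1 := hx d d2 d4
    have h2 := hq d
    rw [hyg d d1 d3] at h2
    simp only [hN]; linarith
  have hNu : N (T.io P.u) = N P.u + l := by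
    have h1 := hx P.u hu_ne h_uiov
    have h2 := hq P.u
    rw [hyu] at h2
    simp only [hN]; linarith
  have hNv : N P.v = N (T.io P.v) + l := by
    have h1 := hx P.v P.hne hv_ne
    have h2 := hq P.v
    rw [hyv] at h2
    simp only [hN]; linarith
  obtain ⟨K, hK⟩ := exists_nat_gt (max (8 / ε) (1 / l))
  have hK1 : 8 / ε < K := lt_of_le_of_lt (le_max_left _ _) hK
  have hK2 : 1 / l < K := lt_of_le_of_lt (le_max_right _ _) hK
  have hK0 : (0 : ℝ) < K := lt_trans (by positivity) hK1
  set A : ℤ := ⌊(K : ℝ) * l⌋ with hA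
  have hA1 : 1 ≤ A := by
    rw [hA, Int.le_floor]
    rw [div_lt_iff₀ hl] at hK2
    push_cast
    linarith
  have hAf : |(A : ℝ) - K * l| ≤ 1 := by
    rw [abs_le]
    have h1 := Int.lt_floor_add_one ((K : ℝ) * l)
    have h2 := Int.floor_le ((K : ℝ) * l)
    constructor <;> linarith
  set f : D → ℤ := fun d => ⌊(K : ℝ) * N d⌋ with hf
  have hff : ∀ e, |(f e : ℝ) - K * N e| ≤ 1 := by
    intro e
    rw [abs_le]
    have h1 := Int.lt_floor_add_one ((K : ℝ) * N e)
    have h2 := Int.floor_le ((K : ℝ) * N e)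
    simp only [hf]
    constructor <;> linarith
  set n : D → ℤ := fun d => if d = T.io P.u then f P.u + A else if d = P.v then f (T.io P.v) + A
    else f d with hn
  have hnu' : n (T.io P.u) = f P.u + A := by simp only [hn, ite_true]
  have hnu : n P.u = f P.u := by simp only [hn, if_neg hu_ne, if_neg hne_uv]
  have hnv' : n (T.io P.v) = f (T.io P.v) := by
    simp only [hn]
    rw [if_neg (fun h => hne_uv (T.io.injective h).symm), if_neg (T.io_ne P.v)]
  have hnv : n P.v = f (T.io P.v) + A := by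
    simp only [hn, if_neg P.hne, ite_true]
  have hng : ∀ d, ¬ P.Special d → n (T.io d) = n d := by
    intro d hd
    have hd' := hd
    unfold Portal.Special at hd
    push Not at hd
    obtain ⟨d1, d2, d3, d4⟩ := hd
    have e1 : T.io d ≠ T.io P.u := fun h => d1 (T.io.injective h)
    have e2 : T.io d ≠ P.v := fun h => d4 (by rw [← h, T.io_io])
    simp only [hn, if_neg e1, if_neg e2, if_neg d2, if_neg d3, hf, hNio d hd']
  have hnn : ∀ e, |(n e : ℝ) - K * N e| ≤ 2 := by
    intro e
    by_cases h1 : e = T.io P.u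
    · rw [h1, hnu', hNu]
      have h2 := abs_le.1 (hff P.u)
      have h3 := abs_le.1 hAf
      rw [abs_le]
      push_cast
      constructor <;> nlinarith [h2.1, h2.2, h3.1, h3.2]
    · by_cases h2 : e = P.v
      · rw [h2, hnv, hNv]
        have h2 := abs_le.1 (hff (T.io P.v))
        have h3 := abs_le.1 hAf
        rw [abs_le]
        push_cast
        constructor <;> nlinarith [h2.1, h2.2, h3.1, h3.2]
      · have : n e = f e := by simp only [hn, if_neg h1, if_neg h2]
        rw [this]
        exact (hff e).trans (by norm_num)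
  set c' : D → ℤ := fun d => n d + n (T.sg (T.sg d)) - n (T.sg d) with hc'
  have hc'sum : ∀ d, c' d + c' (T.sg d) = 2 * n d := fun d => by
    simp only [hc', T.sg3]; ring
  have hc'q : ∀ d, |(c' d : ℝ) - 2 * K * q d| ≤ 6 := by
    intro d
    have h1 := abs_le.1 (hnn d)
    have h2 := abs_le.1 (hnn (T.sg d))
    have h3 := abs_le.1 (hnn (T.sg (T.sg d)))
    have h4 : 2 * (K : ℝ) * q d = K * N d + K * N (T.sg (T.sg d)) - K * N (T.sg d) := by
      simp only [hN, T.sg3]; ring
    rw [h4]
    simp only [hc']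
    push_cast
    rw [abs_le]
    constructor <;> linarith [h1.1, h1.2, h2.1, h2.2, h3.1, h3.2]
  -- minimum along the orbit of rho
  have hex : ∀ d, ∃ m : ℤ, (∀ j, m ≤ c' (T.rho^[j] d)) ∧ ∃ j, c' (T.rho^[j] d) = m := by
    intro d
    obtain ⟨e, he, hmin⟩ := Finset.exists_min_image
      ((Finset.univ : Finset D).filter (fun e => ∃ j, T.rho^[j] d = e)) c'
      ⟨d, by simp only [Finset.mem_filter, Finset.mem_univ, true_and]; exact ⟨0, rfl⟩⟩
    simp only [Finset.mem_filter, Finset.mem_univ, true_and] at he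
    obtain ⟨j, hj⟩ := he
    refine ⟨c' e, fun i => hmin _ (by simp), j, by rw [hj]⟩
  choose mn hmn1 hmn2 using hex
  have hmnrho : ∀ d, mn (T.rho d) = mn d := by
    intro d
    apply le_antisymm
    · obtain ⟨j, hj⟩ := hmn2 d
      obtain ⟨i, hi⟩ := (orb_rho T d (T.rho^[j] d)).2 ⟨j, rfl⟩
      have := hmn1 (T.rho d) i
      rw [hi, hj] at this
      exact this
    · obtain ⟨j, hj⟩ := hmn2 (T.rho d)
      rw [← hj]
      have := hmn1 d (j + 1)
      rwa [Function.iterate_succ_apply] at this
  -- a common lower bound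
  obtain ⟨L, hL⟩ : ∃ L : ℤ, ∀ d, L ≤ c' d := by
    obtain ⟨e, _, hmin⟩ := Finset.exists_min_image (Finset.univ : Finset D) c' ⟨P.u, by simp⟩
    exact ⟨c' e, fun d => hmin d (by simp)⟩
  set m : D → ℤ := fun d => if (∃ j, T.rho^[j] d = P.u) ∨ (∃ j, T.rho^[j] d = P.v) then L
    else mn d with hm
  have hmrho : ∀ d, m (T.rho d) = m d := by
    intro d
    simp only [hm, orb_rho, hmnrho]
  have hmio : ∀ d, m (T.io d) = m (T.sg d) := fun d => by
    rw [← rho_sg T d, hmrho]
  have hmsio : ∀ d, m (T.sg (T.io d)) = m d := fun d => by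
    rw [← hmrho (T.sg (T.io d)), rho_sgio]
  have hmle : ∀ d, m d ≤ c' d := by
    intro d
    simp only [hm]
    split_ifs
    · exact hL d
    · exact hmn1 d 0
  have hmu : m P.u = L := by
    simp only [hm]
    rw [if_pos (Or.inl ⟨0, rfl⟩)]
  have hmv : m P.v = L := by
    simp only [hm]
    rw [if_pos (Or.inr ⟨0, rfl⟩)]
  set c : D → ℕ := fun d => (c' d - m d).toNat with hc
  have hcz : ∀ d, (c d : ℤ) = c' d - m d := fun d => by
    simp only [hc]
    rw [Int.toNat_of_nonneg]
    have := hmle d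
    omega
  have hnumz : ∀ d, (T.num c d : ℤ) = 2 * n d - m d - m (T.sg d) := by
    intro d
    unfold Tri.num
    push_cast
    rw [hcz, hcz, ← hc'sum]
    ring
  have hnumio : ∀ d, (T.num c (T.io d) : ℤ) = 2 * n (T.io d) - m d - m (T.sg d) := by
    intro d
    rw [hnumz, hmio, hmsio]
    ring
  obtain ⟨a, ha⟩ : ∃ a : ℕ, (a : ℤ) = 2 * A := ⟨(2 * A).toNat, Int.toNat_of_nonneg (by omega)⟩
  have har : (a : ℝ) = 2 * A := by
    have : ((a : ℤ) : ℝ) = ((2 * A : ℤ) : ℝ) := by rw [ha]
    push_cast at this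
    exact this
  have hcr : ∀ d, (c d : ℝ) = c' d - m d := by
    intro d
    have : ((c d : ℤ) : ℝ) = ((c' d - m d : ℤ) : ℝ) := by rw [hcz]
    push_cast at this
    exact this
  have hdiff : ∀ d, (c (T.sg d) : ℝ) - c (T.io d) = c' (T.sg d) - c' (T.io d) := by
    intro d
    rw [hcr, hcr, hmio]
    ring
  have herr : ∀ d, d ≠ T.io P.u → d ≠ T.io P.v →
      |((c (T.sg d) : ℝ) - c (T.io d)) / (2 * K) - p.1 d| < ε := by
    intro d h1 h2
    have e1 := abs_le.1 (hc'q (T.sg d))
    have e2 := abs_le.1 (hc'q (T.io d))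
    have e3 := hx d h1 h2
    have hb : |((c (T.sg d) : ℝ) - c (T.io d)) - 2 * K * p.1 d| ≤ 12 := by
      rw [hdiff, ← e3, abs_le]
      constructor <;> nlinarith [e1.1, e1.2, e2.1, e2.2]
    have hid : ((c (T.sg d) : ℝ) - c (T.io d)) / (2 * K) - p.1 d
        = (((c (T.sg d) : ℝ) - c (T.io d)) - 2 * K * p.1 d) / (2 * K) := by
      field_simp
    rw [hid, abs_div, abs_of_pos (by positivity : (0 : ℝ) < 2 * K),
      div_lt_iff₀ (by positivity)]
    rw [div_lt_iff₀ hε] at hK1
    linarith
  refine ⟨c, a, by omega, ⟨?_, ?_, ?_⟩, ?_, 2 * K, by positivity, ?_, ?_⟩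
  · intro d hd
    have h1 := hnumz d
    have h2 := hnumio d
    rw [hng d hd] at h2
    omega
  · have h1 := hnumz P.u
    have h2 := hnumio P.u
    rw [hnu'] at h2
    rw [hnu] at h1
    omega
  · have h1 := hnumz P.v
    have h2 := hnumio P.v
    rw [hnv'] at h2
    rw [hnv] at h1
    omega
  · intro d h1 h2
    obtain ⟨j, hj⟩ := hmn2 d
    refine ⟨j, ?_⟩
    have hmj : ∀ j, m (T.rho^[j] d) = m d := by
      intro j
      induction j with
      | zero => rfl
      | succ k ih => rw [Function.iterate_succ_apply', hmrho, ih]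
    have hmd : m d = mn d := by
      simp only [hm]
      rw [if_neg]
      rintro (⟨i, hi⟩ | ⟨i, hi⟩)
      · exact h1 i hi
      · exact h2 i hi
    have := hcz (T.rho^[j] d)
    rw [hj, hmj, hmd] at this
    omega
  · intro d
    unfold Portal.dirc
    simp only
    by_cases h1 : d = T.io P.u
    · rw [if_pos h1, h1, hio]
      exact herr P.u hu_ne h_uiov
    · by_cases h2 : d = T.io P.v
      · rw [if_neg h1, if_pos h2, h2, hio]
        exact herr P.v P.hne hv_ne
      · rw [if_neg h1, if_neg h2]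
        exact herr d h1 h2
  · unfold Portal.dirc
    simp only
    have e1 := abs_le.1 (hc'q P.v)
    have e2 := abs_le.1 (hc'q P.u)
    have e3 := abs_le.1 hAf
    have hb : |((c P.v : ℝ) - c P.u - a) - 2 * K * p.2| ≤ 14 := by
      rw [hcr, hcr, hmu, hmv, har, ← hqv, abs_le]
      constructor <;> nlinarith [e1.1, e1.2, e2.1, e2.2, e3.1, e3.2]
    have hid : ((c P.v : ℝ) - c P.u - a) / (2 * K) - p.2
        = (((c P.v : ℝ) - c P.u - a) - 2 * K * p.2) / (2 * K) := by
      field_simp
    rw [hid, abs_div, abs_of_pos (by positivity : (0 : ℝ) < 2 * K),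
      div_lt_iff₀ (by positivity)]
    rw [div_lt_iff₀ hε] at hK1
    linarith

end Run7.h544.DG.CDir
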