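import Pool.Agent.Run7.h544.DG.Tr

/-! # Project DG of helper568: pieces S_core, S_inner -/

set_option autoImplicit false

open Real Matrix Filter Topology

noncomputable section

namespace Run7.h544.DG

open Run7.h568.DG

/-! ### real identities -/

lemma cosh_id (p q : ℝ) : cosh p ^ 2 + cosh (p + q) ^ 2 + sinh q ^ 2 = 2 * cosh p * cosh (p + q) * cosh q := by
  rw [cosh_add]
  have h1 := cosh_sq p
  have h2 := cosh_sq q
  have e1 : sinh p ^ 2 = cosh p ^ 2 - 1 := by linarith
  have e2 : cosh q ^ 2 = sinh q ^ 2 + 1 := h2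
  ring_nf
  rw [e2, e1]
  ring_nf

lemma two_cosh_log (l : ℝ) (hl : 0 < l) :
    2 * log ((2 * cosh (l / 2) + √((2 * cosh (l / 2)) ^ 2 - 4)) / 2) = l := by
  have h1 : (2 * cosh (l / 2)) ^ 2 - 4 = (2 * sinh (l / 2)) ^ 2 := by
    have := cosh_sq (l / 2)
    nlinarith
  have h2 : 0 ≤ 2 * sinh (l / 2) := by
    have : 0 < sinh (l / 2) := sinh_pos_iff.2 (by linarith)
    linarith
  rw [h1, sqrt_sq h2]
  have h3 : (2 * cosh (l / 2) + 2 * sinh (l / 2)) / 2 = exp (l / 2) := by
    rw [← cosh_add_sinh]; ring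
  rw [h3, log_exp]
  ring

/-- the trace of the core -/
lemma core_exp (l th : ℝ) (hl : 0 < l) :
    exp (-(ae l th + af l th) / 2) + exp ((ae l th - af l th) / 2) + exp ((ae l th + af l th) / 2) = 2 * cosh (l / 2) := by
  set s := sinh (l / 2) with hs
  set C := cosh (th / 2) with hC
  set V := cosh ((th + l) / 2) with hV
  have hs0 : 0 < s := sinh_pos_iff.2 (by linarith)
  have hC0 : 0 < C := cosh_pos _
  have hV0 : 0 < V := cosh_pos _
  have ha : exp (ae l th / 2) = s / C := by
    unfold ae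
    rw [mul_div_cancel_left₀ _ (by norm_num : (2 : ℝ) ≠ 0), exp_log (by positivity)]
  have hb : exp (af l th / 2) = V / s := by
    unfold af
    rw [mul_div_cancel_left₀ _ (by norm_num : (2 : ℝ) ≠ 0), exp_log (by positivity)]
  have e1 : exp ((ae l th + af l th) / 2) = exp (ae l th / 2) * exp (af l th / 2) := by rw [← exp_add]; ring_nf
  have e2 : exp (-(ae l th + af l th) / 2) = (exp (ae l th / 2) * exp (af l th / 2))⁻¹ := by
    rw [← exp_add, ← exp_neg]; ring_nf
  have e3 : exp ((ae l th - af l th) / 2) = exp (ae l th / 2) * (exp (af l th / 2))⁻¹ := by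
    rw [← exp_neg, ← exp_add]; ring_nf
  rw [e1, e2, e3, ha, hb]
  have hid : C ^ 2 + V ^ 2 + s ^ 2 = 2 * C * V * cosh (l / 2) := by
    have := cosh_id (th / 2) (l / 2)
    rw [show th / 2 + l / 2 = (th + l) / 2 by ring] at this
    exact this
  have e4 : (s / C * (V / s))⁻¹ + s / C * (V / s)⁻¹ + s / C * (V / s) = (C ^ 2 + V ^ 2 + s ^ 2) / (C * V) := by
    field_simp
    ring
  rw [e4, hid]
  field_simp

lemma tr_core (a b : ℝ) : tr (step true a * step false b) = exp (-(a + b) / 2) + exp ((a - b) / 2) + exp ((a + b) / 2) := by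
  have e : (step true a * step false b).1 = (step true a).1 * (step false b).1 := rfl
  unfold tr
  rw [e, step_true_val, step_false_val, Matrix.mul_fin_two]
  simp only [Matrix.of_apply, Matrix.cons_val', Matrix.cons_val_zero, Matrix.cons_val_one]
  rw [← exp_add, ← exp_add, mul_zero, zero_add, ← exp_add]
  ring_nf

lemma tr_core' (a b : ℝ) : tr (step false b * step true a) = exp (-(a + b) / 2) + exp ((a - b) / 2) + exp ((a + b) / 2) := by
  have e : (step false b * step true a).1 = (step false b).1 * (step true a).1 := rfl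
  unfold tr
  rw [e, step_true_val, step_false_val, Matrix.mul_fin_two]
  simp only [Matrix.of_apply, Matrix.cons_val', Matrix.cons_val_zero, Matrix.cons_val_one]
  rw [← exp_add, ← exp_add, mul_zero, add_zero, ← exp_add]
  ring_nf

variable {D : Type} [Fintype D] [DecidableEq D] {T : Tri D} (A : Annulus T)

lemma f1_ne_e1 : A.f1 ≠ A.e1 := by
  intro h
  have := T.sg_ne A.f1
  rw [A.sf1] at this
  exact this h.symm

lemma io_f2 : T.io A.f2 = A.f1 := by rw [← A.iof, T.io_io]

lemma io_e2 : T.io A.e2 = A.e1 := by rw [← A.ioe, T.io_io]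

lemma f1_ne_e2 : A.f1 ≠ A.e2 := by
  intro h
  have h1 : A.f2 = A.e1 := by rw [← A.iof, h, io_e2 A]
  have h2 : A.e1 = A.b2 := by rw [← A.sf1, h, A.se2]
  have h3 := T.sg_ne A.b2
  rw [A.sb2, h1, h2] at h3
  exact h3 rfl

lemma b1_ne_e1 : A.b1 ≠ A.e1 := by
  intro h
  have := T.sg_ne A.e1
  rw [A.se1] at this
  exact this h

lemma b1_ne_e2 : A.b1 ≠ A.e2 := by
  intro h
  have h1 : A.b2 = A.f1 := by rw [← A.se2, ← h, A.sb1]
  have h2 : A.f2 = A.e1 := by rw [← A.sb2, h1, A.sf1]
  have h3 : A.e2 = A.f1 := by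
    have h4 : T.io A.e1 = A.f1 := by rw [← h2, io_f2 A]
    rw [← A.ioe, h4]
  exact f1_ne_e2 A h3.symm

lemma e1_ne_e2 : A.e1 ≠ A.e2 := by
  intro h
  have := T.io_ne A.e1
  rw [A.ioe] at this
  exact this h.symm

lemma f2_ne_e2 : A.f2 ≠ A.e2 := by
  intro h
  have := T.sg_ne A.f2
  rw [A.sf2] at this
  exact this h.symm

lemma f2_ne_e1 : A.f2 ≠ A.e1 := by
  intro h
  have h1 : A.f1 = A.e2 := by rw [← io_f2 A, h, A.ioe]
  exact f1_ne_e2 A h1

/-! ### the moves -/

lemma turn_f1 : T.turn true A.f1 = A.e1 := A.sf1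

lemma turn_f2 : T.turn true A.f2 = A.e2 := A.sf2

lemma turn_e1 : T.turn false A.e1 = A.f1 := by
  show T.sg (T.sg A.e1) = A.f1
  rw [A.se1, A.sb1]

lemma turn_e2 : T.turn false A.e2 = A.f2 := by
  show T.sg (T.sg A.e2) = A.f2
  rw [A.se2, A.sb2]

lemma nxt_f1 : T.nxt true A.f1 = A.e2 := by
  show T.io (T.turn true A.f1) = _
  rw [turn_f1, A.ioe]

lemma nxt_f2 : T.nxt true A.f2 = A.e1 := by
  show T.io (T.turn true A.f2) = _
  rw [turn_f2, io_e2]

lemma nxt_e1 : T.nxt false A.e1 = A.f2 := by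
  show T.io (T.turn false A.e1) = _
  rw [turn_e1, A.iof]

lemma nxt_e2 : T.nxt false A.e2 = A.f1 := by
  show T.io (T.turn false A.e2) = _
  rw [turn_e2, io_f2]

lemma out_f1 : T.nxt false A.f1 = T.io A.b1 := by
  show T.io (T.sg (T.sg A.f1)) = _
  rw [A.sf1, A.se1]

lemma out_f2 : T.nxt false A.f2 = T.io A.b2 := by
  show T.io (T.sg (T.sg A.f2)) = _
  rw [A.sf2, A.se2]

lemma out_e1 : T.nxt true A.e1 = T.io A.b1 := by
  show T.io (T.sg A.e1) = _
  rw [A.se1]

lemma out_e2 : T.nxt true A.e2 = T.io A.b2 := by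
  show T.io (T.sg A.e2) = _
  rw [A.se2]

/-- the indicator of the edge `e` -/
def ci (d : D) : ℕ := if d = A.e1 ∨ d = A.e2 then 1 else 0

lemma ci_io (d : D) : ci A (T.io d) = ci A d := by
  unfold ci
  congr 1
  have h : (T.io d = A.e1 ∨ T.io d = A.e2) ↔ (d = A.e1 ∨ d = A.e2) := by
    constructor
    · rintro (h | h)
      · right; rw [← A.ioe, ← h, T.io_io]
      · left; rw [← io_e2 A, ← h, T.io_io]
    · rintro (h | h)
      · right; rw [h, A.ioe]
      · left; rw [h, io_e2]
  exact propext h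

lemma ci_sg (d : D) : ci A (T.sg d) = if d = A.f1 ∨ d = A.f2 then 1 else 0 := by
  unfold ci
  congr 1
  have h : (T.sg d = A.e1 ∨ T.sg d = A.e2) ↔ (d = A.f1 ∨ d = A.f2) := by
    rw [← A.sf1, ← A.sf2, T.sg.injective.eq_iff, T.sg.injective.eq_iff]
  exact propext h

lemma ci_match : T.Match (ci A) := by
  intro d
  unfold Tri.num
  rw [ci_io, ci_sg, ci_sg]
  congr 2
  have h : (T.io d = A.f1 ∨ T.io d = A.f2) ↔ (d = A.f1 ∨ d = A.f2) := by
    constructor
    · rintro (h | h)
      · right; rw [← A.iof, ← h, T.io_io]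
      · left; rw [← io_f2 A, ← h, T.io_io]
    · rintro (h | h)
      · right; rw [h, A.iof]
      · left; rw [h, io_f2]
  exact propext h

lemma ci_f1 : ci A A.f1 = 0 := by
  unfold ci
  rw [if_neg]
  rintro (h | h)
  · exact f1_ne_e1 A h
  · exact f1_ne_e2 A h

lemma ci_e1 : ci A A.e1 = 1 := by
  unfold ci; rw [if_pos (Or.inl rfl)]

lemma ci_e2 : ci A A.e2 = 1 := by
  unfold ci; rw [if_pos (Or.inr rfl)]

lemma ci_b1 : ci A A.b1 = 0 := by
  unfold ci
  rw [if_neg]
  rintro (h | h)
  · exact b1_ne_e1 A h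
  · exact b1_ne_e2 A h

lemma snext_f1 : T.snext (ci A) (A.f1, 0) = (A.e2, 0) := by
  unfold Tri.snext
  simp only [ci_f1, lt_irrefl, if_false]
  rw [A.sf1, A.se1, ci_b1, A.ioe]

lemma snext_e2 : T.snext (ci A) (A.e2, 0) = (A.f1, 0) := by
  unfold Tri.snext
  simp only [ci_e2, Nat.lt_one_iff, if_true]
  rw [A.se2, A.sb2, io_f2]

theorem core (hK : S_K) : S_core := by
  intro D _ _ T A
  refine ⟨⟨?_, by simp, by simp⟩, ?_, ?_⟩
  · show T.endp [] (T.nxt false (T.nxt true A.f1)) = A.f1
    rw [nxt_f1, nxt_e2]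
    rfl
  · refine ⟨ci A, ci_match A, 0, ?_, 2, by norm_num, ?_, ?_, ?_⟩
    · unfold Tri.num
      rw [A.sf1, ci_e1]
      omega
    · show T.snext (ci A) (T.snext (ci A) (A.f1, 0)) = (A.f1, 0)
      rw [snext_f1, snext_e2]
    · intro k hk hk2
      have : k = 1 := by omega
      subst this
      show T.snext (ci A) (A.f1, 0) ≠ (A.f1, 0)
      rw [snext_f1]
      intro h
      exact f1_ne_e2 A (congrArg Prod.fst h).symm
    · show [true, false] = [Tri.sbit (ci A) (A.f1, 0), Tri.sbit (ci A) (T.snext (ci A) (A.f1, 0))]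
      rw [snext_f1]
      unfold Tri.sbit
      simp [ci_f1, ci_e2]
  · intro l hl th y hy
    obtain ⟨_, _, _, _, _, _, _, _, _, _, _, hv, _⟩ := hK T A
    obtain ⟨h1, h2, h3, h4⟩ := hv l th y hy
    have e1 : T.hol (A.K l th y) [true, false] A.f1 = step true (ae l th) * step false (af l th) := by
      show step true (A.K l th y (T.turn true A.f1)) *
        (step false (A.K l th y (T.turn false (T.nxt true A.f1))) * 1) = _
      rw [nxt_f1, turn_f1, turn_e2, h1, h4, mul_one]
    unfold Tri.len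
    rw [e1, tr_core, core_exp l th hl]
    exact two_cosh_log l hl

/-! ### S_inner -/

/-- the two kinds of inner darts -/
def ty (τ : Bool) (d : D) : Prop := if τ = true then (d = A.f1 ∨ d = A.f2) else (d = A.e1 ∨ d = A.e2)

/-- alternating products -/
def alt (a b : ℝ) : ℕ → Bool → SL
  | 0, _ => 1
  | n + 1, true => step true a * alt a b n false
  | n + 1, false => step false b * alt a b n true

/-- the kind after `n` steps -/
def st : ℕ → Bool → Bool
  | 0, τ => τ
  | n + 1, τ => st n (!τ)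

lemma st_iff (n : ℕ) : ∀ τ, (st n τ = τ ↔ Even n) := by
  induction n with
  | zero => intro τ; simp [st]
  | succ n ih =>
    intro τ
    have h1 := ih (!τ)
    show st n (!τ) = τ ↔ Even (n + 1)
    rw [Nat.even_add_one, ← h1]
    cases st n (!τ) <;> cases τ <;> simp

lemma alt_even (a b : ℝ) (n : ℕ) : alt a b (2 * n) true = (step true a * step false b) ^ n ∧
    alt a b (2 * n) false = (step false b * step true a) ^ n := by
  induction n with
  | zero => exact ⟨rfl, rfl⟩
  | succ n ih =>
    obtain ⟨h1, h2⟩ := ih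
    rw [show 2 * (n + 1) = 2 * n + 1 + 1 by ring]
    constructor
    · show step true a * (step false b * alt a b (2 * n) true) = _
      rw [h1, pow_succ', mul_assoc]
    · show step false b * (step true a * alt a b (2 * n) false) = _
      rw [h2, pow_succ', mul_assoc]

lemma inner_aux (hb1 : A.Outer A.b1) (hb2 : A.Outer A.b2) (hio : ∀ d, A.Outer d → A.Outer (T.io d))
    (w : List Bool) : ∀ (d : D) (τ : Bool), ty A τ d → (∀ u v, w = u ++ v → ¬ A.Outer (T.endp u d)) →
      ty A (st w.length τ) (T.endp w d) ∧ ∀ (x : D → ℝ) (a b : ℝ), x A.e1 = a → x A.e2 = a → x A.f1 = b → x A.f2 = b →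
        T.hol x w d = alt a b w.length τ := by
  induction w with
  | nil => intro d τ hd _; exact ⟨hd, fun x a b _ _ _ _ => rfl⟩
  | cons c w ih =>
    intro d τ hd hno
    have hn : ¬ A.Outer (T.nxt c d) := hno [c] w rfl
    have hno' : ∀ u v, w = u ++ v → ¬ A.Outer (T.endp u (T.nxt c d)) := by
      intro u v huv
      exact hno (c :: u) v (by rw [huv]; rfl)
    have key : c = τ ∧ ty A (!τ) (T.nxt c d) ∧ ∀ (x : D → ℝ) (a b : ℝ), x A.e1 = a → x A.e2 = a →
        x A.f1 = b → x A.f2 = b → x (T.turn c d) = if τ = true then a else b := by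
      cases τ
      · have hd' : d = A.e1 ∨ d = A.e2 := hd
        cases c
        · refine ⟨rfl, ?_, ?_⟩
          · show T.nxt false d = A.f1 ∨ T.nxt false d = A.f2
            rcases hd' with rfl | rfl
            · right; exact nxt_e1 A
            · left; exact nxt_e2 A
          · intro x a b _ _ h3 h4
            rw [if_neg (by simp)]
            rcases hd' with rfl | rfl
            · rw [turn_e1, h3]
            · rw [turn_e2, h4]
        · exfalso
          apply hn
          rcases hd' with rfl | rfl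
          · rw [out_e1]; exact hio _ hb1
          · rw [out_e2]; exact hio _ hb2
      · have hd' : d = A.f1 ∨ d = A.f2 := hd
        cases c
        · exfalso
          apply hn
          rcases hd' with rfl | rfl
          · rw [out_f1]; exact hio _ hb1
          · rw [out_f2]; exact hio _ hb2
        · refine ⟨rfl, ?_, ?_⟩
          · show T.nxt true d = A.e1 ∨ T.nxt true d = A.e2
            rcases hd' with rfl | rfl
            · right; exact nxt_f1 A
            · left; exact nxt_f2 A
          · intro x a b h1 h2 _ _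
            rw [if_pos rfl]
            rcases hd' with rfl | rfl
            · rw [turn_f1, h1]
            · rw [turn_f2, h2]
    obtain ⟨hc, hty, hx⟩ := key
    obtain ⟨i1, i2⟩ := ih (T.nxt c d) (!τ) hty hno'
    refine ⟨i1, ?_⟩
    intro x a b h1 h2 h3 h4
    have e1 : T.hol x (c :: w) d = step c (x (T.turn c d)) * T.hol x w (T.nxt c d) := rfl
    rw [e1, hx x a b h1 h2 h3 h4, i2 x a b h1 h2 h3 h4, hc]
    cases τ <;> rfl

lemma tr_rec (M N : SL) : tr (M * (M * N)) = tr M * tr (M * N) - tr N := by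
  have e1 : (M * (M * N)).1 = M.1 * (M.1 * N.1) := rfl
  have e2 : (M * N).1 = M.1 * N.1 := rfl
  have hdet := M.2
  rw [Matrix.det_fin_two] at hdet
  unfold tr
  rw [e1, e2]
  simp only [Matrix.mul_apply, Fin.sum_univ_two]
  linear_combination (-(N.1 0 0 + N.1 1 1)) * hdet

lemma tr_pow (M : SL) (q : ℝ) (hM : tr M = 2 * cosh q) (n : ℕ) :
    tr (M ^ n) = 2 * cosh (n * q) ∧ tr (M ^ (n + 1)) = 2 * cosh ((n + 1 : ℕ) * q) := by
  induction n with
  | zero =>
    constructor
    · rw [pow_zero]
      unfold tr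
      norm_num
    · rw [zero_add, pow_one, hM]; norm_num
  | succ n ih =>
    refine ⟨ih.2, ?_⟩
    rw [pow_succ', pow_succ', tr_rec, ← pow_succ', ih.1, ih.2, hM]
    push_cast
    have e1 : ((n : ℝ) + 1 + 1) * q = ((n : ℝ) + 1) * q + q := by ring
    have e2 : (n : ℝ) * q = ((n : ℝ) + 1) * q - q := by ring
    rw [e1, e2, cosh_add, cosh_sub]
    ring

theorem inner (hK : S_K) : S_inner := by
  intro D _ _ T A w d hw
  obtain ⟨_, _, _, _, _, _, _, _, _, _, _, hv, _, hb1, hb2, _, hio⟩ := hK T A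
  by_cases hno : ∃ u v, w = u ++ v ∧ A.Outer (T.endp u d)
  · exact Or.inl hno
  · right
    push Not at hno
    have hd : ¬ A.Outer d := hno [] w rfl
    have hty : ∃ τ, ty A τ d := by
      by_contra hc
      push Not at hc
      apply hd
      have h1 := hc true
      have h2 := hc false
      unfold ty at h1 h2
      simp only [if_true, not_or] at h1
      simp only [Bool.false_eq_true, if_false, not_or] at h2
      exact ⟨h2.1, h2.2, h1.1, h1.2⟩
    obtain ⟨τ, hτ⟩ := hty
    obtain ⟨h1, h2⟩ := inner_aux A hb1 hb2 hio w d τ hτ hno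
    rw [hw.1] at h1
    -- the two kinds are disjoint
    have hdis : ∀ σ, ty A σ d → σ = τ := by
      intro σ hσ
      have key : ∀ d, ty A true d → ty A false d → False := by
        intro d h3 h4
        have h3' : d = A.f1 ∨ d = A.f2 := h3
        have h4' : d = A.e1 ∨ d = A.e2 := h4
        rcases h3' with rfl | rfl
        · rcases h4' with h | h
          · exact f1_ne_e1 A h
          · exact f1_ne_e2 A h
        · rcases h4' with h | h
          · exact f2_ne_e1 A h
          · exact f2_ne_e2 A h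
      cases σ <;> cases τ
      · rfl
      · exact (key d hτ hσ).elim
      · exact (key d hσ hτ).elim
      · rfl
    have h3 := (st_iff w.length τ).1 (hdis _ h1)
    obtain ⟨n, hn⟩ := h3
    refine ⟨n, ?_⟩
    intro l th hl y hy
    obtain ⟨k1, k2, k3, k4⟩ := hv l th y hy
    rw [h2 _ _ _ k1 k2 k3 k4, hn, ← two_mul]
    have e : (n : ℝ) * l / 2 = n * (l / 2) := by ring
    rw [e]
    cases τ
    · rw [(alt_even _ _ n).2]
      exact (tr_pow _ (l / 2) (by rw [tr_core', core_exp l th hl]) n).1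
    · rw [(alt_even _ _ n).1]
      exact (tr_pow _ (l / 2) (by rw [tr_core, core_exp l th hl]) n).1

end Run7.h544.DG
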