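import Pool.Agent.Run7.h544.DG.Core

/-! # Project DG of helper568: piece S_exc -/

set_option autoImplicit false

open Real Matrix Filter Topology

noncomputable section

namespace Run7.h544.DG

open Run7.h568.DG

abbrev M2 := Matrix (Fin 2) (Fin 2) ℝ

lemma rec4 (P N L Q : M2) (h : P * N = L * P) (m : ℕ) : P * N ^ (m + 1) * Q = L * (P * N ^ m * Q) := by
  rw [pow_succ', ← Matrix.mul_assoc P N, h]
  simp only [Matrix.mul_assoc]

lemma cosh_mul_cosh (p q : ℝ) : cosh (p + q) * cosh (p - q) = cosh p ^ 2 + sinh q ^ 2 := by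
  rw [cosh_add, cosh_sub]
  have h1 : sinh p ^ 2 = cosh p ^ 2 - 1 := by have := cosh_sq p; linarith
  have h2 : cosh q ^ 2 = sinh q ^ 2 + 1 := cosh_sq q
  have e : (cosh p * cosh q + sinh p * sinh q) * (cosh p * cosh q - sinh p * sinh q) =
      cosh p ^ 2 * cosh q ^ 2 - sinh p ^ 2 * sinh q ^ 2 := by ring
  rw [e, h1, h2]
  ring

lemma c_rec (l th j : ℝ) : 2 * cosh (l / 2) * (cosh ((th + j * l) / 2) / sinh (l / 2)) =
    cosh ((th + (j + 1) * l) / 2) / sinh (l / 2) + cosh ((th + (j - 1) * l) / 2) / sinh (l / 2) := by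
  have e1 : (th + (j + 1) * l) / 2 = (th + j * l) / 2 + l / 2 := by ring
  have e2 : (th + (j - 1) * l) / 2 = (th + j * l) / 2 - l / 2 := by ring
  rw [e1, e2, cosh_add, cosh_sub]
  ring

lemma s_rec (l j : ℝ) : 2 * cosh (l / 2) * (sinh (j * l / 2) / sinh (l / 2)) =
    sinh ((j + 1) * l / 2) / sinh (l / 2) + sinh ((j - 1) * l / 2) / sinh (l / 2) := by
  have e1 : (j + 1) * l / 2 = j * l / 2 + l / 2 := by ring
  have e2 : (j - 1) * l / 2 = j * l / 2 - l / 2 := by ring
  rw [e1, e2, sinh_add, sinh_sub]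
  ring

lemma sand (g g' x y z w : ℝ) (h : g * g' = 1) :
    !![g, 0; 0, g'] * !![x, y; z, w] * !![g, 0; 0, g'] = !![g * g * x, y; z, g' * g' * w] := by
  have h' : g' * g = 1 := by rw [mul_comm]; exact h
  rw [Matrix.mul_fin_two, Matrix.mul_fin_two]
  have e1 : g * y * g' = y := by rw [mul_right_comm, h, one_mul]
  have e2 : g' * z * g = z := by rw [mul_right_comm, h', one_mul]
  ext i j
  fin_cases i <;> fin_cases j
  · simp; ring
  · simpa using e1
  · simpa using e2
  · simp; ring

set_option maxHeartbeats 2000000 in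
theorem exc : S_exc := by
  intro l hl th m
  intro a b G c s
  set s0 := sinh (l / 2) with hs0
  set C := cosh (th / 2) with hC
  set V := cosh ((th + l) / 2) with hV
  set τ := 2 * cosh (l / 2) with hτ
  have s0p : 0 < s0 := sinh_pos_iff.2 (by linarith)
  have Cp : 0 < C := cosh_pos _
  have Vp : 0 < V := cosh_pos _
  have hA : exp (a / 2) = s0 / C := by
    show exp (ae l th / 2) = _
    unfold ae
    rw [mul_div_cancel_left₀ _ (by norm_num : (2 : ℝ) ≠ 0), exp_log (by positivity)]
  have hB : exp (b / 2) = V / s0 := by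
    show exp (af l th / 2) = _
    unfold af
    rw [mul_div_cancel_left₀ _ (by norm_num : (2 : ℝ) ≠ 0), exp_log (by positivity)]
  have hA' : exp (-a / 2) = C / s0 := by
    rw [neg_div, exp_neg, hA, inv_div]
  have hB' : exp (-b / 2) = s0 / V := by
    rw [neg_div, exp_neg, hB, inv_div]
  set g := exp ((a + b) / 4) with hg
  have gp : 0 < g := exp_pos _
  have hg2 : g * g = V / C := by
    have h1 : g * g = exp (a / 2) * exp (b / 2) := by
      rw [hg, ← exp_add, ← exp_add]
      congr 1
      ring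
    rw [h1, hA, hB]
    field_simp
  have hG : G.1 = !![g, 0; 0, g⁻¹] := by
    have e1 : G.1 = !![exp (-(-(a + b) / 2) / 2), 0; 0, exp (-(a + b) / 2 / 2)] := rfl
    have e2 : -(-(a + b) / 2) / 2 = (a + b) / 4 := by ring
    have e3 : -(a + b) / 2 / 2 = -((a + b) / 4) := by ring
    rw [e1, e2, e3, exp_neg]
  have hTa : (step true a).1 = !![C / s0, s0 / C; 0, s0 / C] := by rw [step_true_val, hA, hA']
  have hTb : (step true b).1 = !![s0 / V, V / s0; 0, V / s0] := by rw [step_true_val, hB, hB']
  have hFa : (step false a).1 = !![C / s0, 0; C / s0, s0 / C] := by rw [step_false_val, hA, hA']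
  have hFb : (step false b).1 = !![s0 / V, 0; s0 / V, V / s0] := by rw [step_false_val, hB, hB']
  have hUt : (U true).1 = !![1, 1; 0, 1] := rfl
  have hUf : (U false).1 = !![1, 0; 1, 1] := rfl
  -- the trace
  have hτ' : τ * (C * V) = C ^ 2 + V ^ 2 + s0 ^ 2 := by
    have := cosh_id (th / 2) (l / 2)
    rw [show th / 2 + l / 2 = (th + l) / 2 by ring] at this
    rw [hτ]
    linarith
  have hτ2 : τ = (C ^ 2 + V ^ 2 + s0 ^ 2) / (C * V) := by
    rw [eq_div_iff (by positivity)]; exact hτ'
  have cr : ∀ j, τ * c j = c (j + 1) + c (j - 1) := fun j => c_rec l th j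
  have sr : ∀ j, τ * s j = s (j + 1) + s (j - 1) := fun j => s_rec l j
  have c0 : c 0 = C / s0 := by
    show cosh ((th + 0 * l) / 2) / s0 = _
    rw [zero_mul, add_zero]
  have c1 : c 1 = V / s0 := by
    show cosh ((th + 1 * l) / 2) / s0 = _
    rw [one_mul]
  have hs00 : s 0 = 0 := by
    show sinh (0 * l / 2) / s0 = 0
    rw [zero_mul, zero_div, sinh_zero, zero_div]
  have hs1 : s 1 = 1 := by
    show sinh (1 * l / 2) / s0 = 1
    rw [one_mul, div_self s0p.ne']
  have hs2 : s 2 = τ := by
    have := sr 1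
    rw [hs1, sub_self, hs00, mul_one, add_zero] at this
    rw [this]; norm_num
  have hcm1 : c (-1) = τ * (C / s0) - V / s0 := by
    have := cr 0
    rw [c0, zero_add, c1, zero_sub] at this
    linarith
  have hc2 : c 2 = τ * (V / s0) - C / s0 := by
    have := cr 1
    rw [c1, sub_self, c0, show (1 : ℝ) + 1 = 2 by norm_num] at this
    linarith
  -- left recursions
  set L : M2 := !![0, 1; -1, τ] with hL
  set L3 : M2 := !![τ, -1; 1, 0] with hL3
  have hgi : g⁻¹ = g * C / V := by
    rw [eq_div_iff Vp.ne', inv_mul_eq_iff_eq_mul₀ gp.ne', ← mul_div_cancel_right₀ V Cp.ne']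
    field_simp
    field_simp at hg2
    linarith
  have key1 : (G.1 * (step false a).1) * ((step false b).1 * (step true a).1) = L * (G.1 * (step false a).1) := by
    rw [hG, hFa, hFb, hTa, hL, Matrix.mul_fin_two, Matrix.mul_fin_two, Matrix.mul_fin_two, Matrix.mul_fin_two]
    rw [hgi, hτ2]
    ext i j
    fin_cases i <;> fin_cases j <;> simp <;> field_simp <;> ring
  have key3 : (G.1 * (step true b).1) * ((step true a).1 * (step false b).1) = L3 * (G.1 * (step true b).1) := by
    rw [hG, hTb, hFb, hTa, hL3, Matrix.mul_fin_two, Matrix.mul_fin_two, Matrix.mul_fin_two, Matrix.mul_fin_two]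
    rw [hgi, hτ2]
    ext i j
    fin_cases i <;> fin_cases j <;> simp <;> field_simp <;> ring
  -- the products
  have hgg : g * g⁻¹ = 1 := mul_inv_cancel₀ gp.ne'
  have hgg2 : g⁻¹ * g⁻¹ = C / V := by
    rw [← mul_inv, hg2, inv_div]
  have san : ∀ X : M2, (G.1 * X) * G.1 = !![V / C * X 0 0, X 0 1; X 1 0, C / V * X 1 1] := by
    intro X
    have eX : X = !![X 0 0, X 0 1; X 1 0, X 1 1] := Matrix.eta_fin_two X
    rw [hG, ← hg2, ← hgg2]
    conv_lhs => rw [eX]
    exact sand g g⁻¹ _ _ _ _ hgg
  have base1 : (G.1 * (step false a).1) * ((U true).1 * G.1) = !![c 1, c 0; c 0, c (-1)] := by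
    have e : (G.1 * (step false a).1) * ((U true).1 * G.1) = (G.1 * ((step false a).1 * (U true).1)) * G.1 := by
      simp only [Matrix.mul_assoc]
    rw [e, san, hFa, hUt, c1, c0, hcm1, Matrix.mul_fin_two, hτ2]
    ext i j
    fin_cases i <;> fin_cases j <;> simp <;> field_simp <;> ring
  have base2 : (G.1 * (step false a).1) * ((step false b).1 * (U false).1 * G.1) = !![s 1, s 0; s 2, s 1] := by
    have e : (G.1 * (step false a).1) * ((step false b).1 * (U false).1 * G.1) =
        (G.1 * ((step false a).1 * ((step false b).1 * (U false).1))) * G.1 := by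
      simp only [Matrix.mul_assoc]
    rw [e, san, hFa, hFb, hUf, hs1, hs00, hs2, Matrix.mul_fin_two, Matrix.mul_fin_two, hτ2]
    ext i j
    fin_cases i <;> fin_cases j <;> simp <;> field_simp <;> ring
  have base3 : (G.1 * (step true b).1) * ((U false).1 * G.1) = !![c 2, c 1; c 1, c 0] := by
    have e : (G.1 * (step true b).1) * ((U false).1 * G.1) = (G.1 * ((step true b).1 * (U false).1)) * G.1 := by
      simp only [Matrix.mul_assoc]
    rw [e, san, hTb, hUf, c1, c0, hc2, Matrix.mul_fin_two, hτ2]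
    ext i j
    fin_cases i <;> fin_cases j <;> simp <;> field_simp <;> ring
  have base4 : (G.1 * (step true b).1) * ((step true a).1 * (U true).1 * G.1) = !![s 1, s 2; s 0, s 1] := by
    have e : (G.1 * (step true b).1) * ((step true a).1 * (U true).1 * G.1) =
        (G.1 * ((step true b).1 * ((step true a).1 * (U true).1))) * G.1 := by
      simp only [Matrix.mul_assoc]
    rw [e, san, hTa, hTb, hUt, hs1, hs00, hs2, Matrix.mul_fin_two, Matrix.mul_fin_two, hτ2]
    ext i j
    fin_cases i <;> fin_cases j <;> simp <;> field_simp <;> ring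
  have f1 : ∀ n : ℕ, (G.1 * (step false a).1) * ((step false b).1 * (step true a).1) ^ n * ((U true).1 * G.1) =
      !![c (1 - n), c (-n); c (-n), c (-n - 1)] := by
    intro n
    induction n with
    | zero =>
      rw [pow_zero, Matrix.mul_one, base1, Nat.cast_zero, sub_zero, neg_zero, zero_sub]
    | succ n ih =>
      rw [rec4 _ _ L _ key1, ih, hL, Matrix.mul_fin_two]
      have a1 : c (1 - ((n + 1 : ℕ) : ℝ)) = c (-n) := by congr 1; push_cast; ring
      have a2 : c (-((n + 1 : ℕ) : ℝ)) = c (-n - 1) := by congr 1; push_cast; ring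
      have a3 := cr (-n)
      have a4 := cr (-n - 1)
      have a5 : c (-(n : ℝ) + 1) = c (1 - n) := by congr 1; ring
      have a6 : c (-(n : ℝ) - 1 + 1) = c (-n) := by congr 1; ring
      have a7 : c (-((n + 1 : ℕ) : ℝ) - 1) = c (-(n : ℝ) - 1 - 1) := by congr 1; push_cast; ring
      rw [a1, a2, a7]
      ext i j
      fin_cases i <;> fin_cases j <;> simp <;> linarith
  have f2 : ∀ n : ℕ, (G.1 * (step false a).1) * ((step false b).1 * (step true a).1) ^ n *
      ((step false b).1 * (U false).1 * G.1) = !![s (n + 1), s n; s (n + 2), s (n + 1)] := by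
    intro n
    induction n with
    | zero =>
      rw [pow_zero, Matrix.mul_one, base2, Nat.cast_zero, zero_add, zero_add]
    | succ n ih =>
      rw [rec4 _ _ L _ key1, ih, hL, Matrix.mul_fin_two]
      have a1 : s (((n + 1 : ℕ) : ℝ) + 1) = s (n + 2) := by congr 1; push_cast; ring
      have a2 : s ((n + 1 : ℕ) : ℝ) = s (n + 1) := by congr 1; push_cast; ring
      have a3 := sr (n + 1)
      have a4 := sr (n + 2)
      have a5 : s ((n : ℝ) + 1 + 1) = s (n + 2) := by congr 1; ring
      have a6 : s ((n : ℝ) + 1 - 1) = s n := by congr 1; ring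
      have a7 : s ((n : ℝ) + 2 - 1) = s (n + 1) := by congr 1; ring
      have a8 : s (((n + 1 : ℕ) : ℝ) + 2) = s ((n : ℝ) + 2 + 1) := by congr 1; push_cast; ring
      rw [a1, a2, a8]
      ext i j
      fin_cases i <;> fin_cases j <;> simp <;> linarith
  have f3 : ∀ n : ℕ, (G.1 * (step true b).1) * ((step true a).1 * (step false b).1) ^ n * ((U false).1 * G.1) =
      !![c (n + 2), c (n + 1); c (n + 1), c n] := by
    intro n
    induction n with
    | zero =>
      rw [pow_zero, Matrix.mul_one, base3, Nat.cast_zero, zero_add, zero_add]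
    | succ n ih =>
      rw [rec4 _ _ L3 _ key3, ih, hL3, Matrix.mul_fin_two]
      have a1 : c (((n + 1 : ℕ) : ℝ) + 1) = c (n + 2) := by congr 1; push_cast; ring
      have a2 : c ((n + 1 : ℕ) : ℝ) = c (n + 1) := by congr 1; push_cast; ring
      have a3 := cr (n + 1)
      have a4 := cr (n + 2)
      have a5 : c ((n : ℝ) + 1 + 1) = c (n + 2) := by congr 1; ring
      have a6 : c ((n : ℝ) + 1 - 1) = c n := by congr 1; ring
      have a7 : c ((n : ℝ) + 2 - 1) = c (n + 1) := by congr 1; ring
      have a8 : c (((n + 1 : ℕ) : ℝ) + 2) = c ((n : ℝ) + 2 + 1) := by congr 1; push_cast; ring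
      rw [a1, a2, a8]
      ext i j
      fin_cases i <;> fin_cases j <;> simp <;> linarith
  have f4 : ∀ n : ℕ, (G.1 * (step true b).1) * ((step true a).1 * (step false b).1) ^ n *
      ((step true a).1 * (U true).1 * G.1) = !![s (n + 1), s (n + 2); s n, s (n + 1)] := by
    intro n
    induction n with
    | zero =>
      rw [pow_zero, Matrix.mul_one, base4, Nat.cast_zero, zero_add, zero_add]
    | succ n ih =>
      rw [rec4 _ _ L3 _ key3, ih, hL3, Matrix.mul_fin_two]
      have a1 : s (((n + 1 : ℕ) : ℝ) + 1) = s (n + 2) := by congr 1; push_cast; ring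
      have a2 : s ((n + 1 : ℕ) : ℝ) = s (n + 1) := by congr 1; push_cast; ring
      have a3 := sr (n + 1)
      have a4 := sr (n + 2)
      have a5 : s ((n : ℝ) + 1 + 1) = s (n + 2) := by congr 1; ring
      have a6 : s ((n : ℝ) + 1 - 1) = s n := by congr 1; ring
      have a7 : s ((n : ℝ) + 2 - 1) = s (n + 1) := by congr 1; ring
      have a8 : s (((n + 1 : ℕ) : ℝ) + 2) = s ((n : ℝ) + 2 + 1) := by congr 1; push_cast; ring
      rw [a1, a2, a8]
      ext i j
      fin_cases i <;> fin_cases j <;> simp <;> linarith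
  refine ⟨?_, ?_, ?_, ?_⟩
  · rw [← f1 m]
    simp only [Matrix.SpecialLinearGroup.coe_mul, Matrix.SpecialLinearGroup.coe_pow, Matrix.mul_assoc]
  · rw [← f2 m]
    simp only [Matrix.SpecialLinearGroup.coe_mul, Matrix.SpecialLinearGroup.coe_pow, Matrix.mul_assoc]
  · rw [← f3 m]
    simp only [Matrix.SpecialLinearGroup.coe_mul, Matrix.SpecialLinearGroup.coe_pow, Matrix.mul_assoc]
  · rw [← f4 m]
    simp only [Matrix.SpecialLinearGroup.coe_mul, Matrix.SpecialLinearGroup.coe_pow, Matrix.mul_assoc]

end Run7.h544.DG
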