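import Pool.Agent.Run7.h568.DG.Iface

/-! # Project DG of helper568: pieces S_tr, S_pos, S_core, S_inner -/

set_option autoImplicit false

open Real Matrix Filter Topology

noncomputable section

namespace Run7.h544.DG

open Run7.h568.DG

lemma step_true_val (s : ℝ) : (step true s).1 = !![exp (-s / 2), exp (s / 2); 0, exp (s / 2)] := by
  have e : (step true s).1 = !![(1 : ℝ), 1; 0, 1] * !![exp (-s / 2), 0; 0, exp (s / 2)] := rfl
  rw [e, Matrix.mul_fin_two]
  simp

lemma step_false_val (s : ℝ) : (step false s).1 = !![exp (-s / 2), 0; exp (-s / 2), exp (s / 2)] := by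
  have e : (step false s).1 = !![(1 : ℝ), 0; 1, 1] * !![exp (-s / 2), 0; 0, exp (s / 2)] := rfl
  rw [e, Matrix.mul_fin_two]
  simp

variable {D : Type} [Fintype D] [DecidableEq D]

/-- lower bounds for the entries of a holonomy -/
lemma hol_facts (T : Tri D) (x : D → ℝ) (w : List Bool) : ∀ d : D, ∃ S : ℝ,
    exp (-S / 2) ≤ (T.hol x w d).1 0 0 ∧ exp (S / 2) ≤ (T.hol x w d).1 1 1 ∧
    0 ≤ (T.hol x w d).1 0 1 ∧ 0 ≤ (T.hol x w d).1 1 0 ∧
    (true ∈ w → 0 < (T.hol x w d).1 0 1) ∧ (false ∈ w → 0 < (T.hol x w d).1 1 0) ∧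
    (true ∈ w → false ∈ w → exp (-S / 2) + exp (S / 2) < (T.hol x w d).1 0 0 + (T.hol x w d).1 1 1) := by
  induction w with
  | nil =>
    intro d
    refine ⟨0, ?_⟩
    simp [Tri.hol]
  | cons b w ih =>
    intro d
    obtain ⟨S, h1, h2, h3, h4, h5, h6, h7⟩ := ih (T.nxt b d)
    set M := (T.hol x w (T.nxt b d)).1 with hM
    set s := x (T.turn b d) with hs
    refine ⟨s + S, ?_⟩
    have hp1 : 0 < exp (-s / 2) := exp_pos _
    have hp2 : 0 < exp (s / 2) := exp_pos _
    have hq1 : 0 < exp (-S / 2) := exp_pos _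
    have hq2 : 0 < exp (S / 2) := exp_pos _
    have e1 : exp (-(s + S) / 2) = exp (-s / 2) * exp (-S / 2) := by rw [← exp_add]; ring_nf
    have e2 : exp ((s + S) / 2) = exp (s / 2) * exp (S / 2) := by rw [← exp_add]; ring_nf
    have hM0 : 0 < M 0 0 := lt_of_lt_of_le hq1 h1
    have hM1 : 0 < M 1 1 := lt_of_lt_of_le hq2 h2
    have g1 := mul_le_mul_of_nonneg_left h1 hp1.le
    have g2 := mul_le_mul_of_nonneg_left h2 hp2.le
    have g3 : 0 ≤ exp (s / 2) * M 1 0 := mul_nonneg hp2.le h4
    have g4 : 0 ≤ exp (-s / 2) * M 0 1 := mul_nonneg hp1.le h3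
    have g5 : 0 < exp (s / 2) * M 1 1 := mul_pos hp2 hM1
    have g6 : 0 < exp (-s / 2) * M 0 0 := mul_pos hp1 hM0
    have eh : (T.hol x (b :: w) d).1 = (step b s).1 * M := by
      rw [hM, ← Matrix.SpecialLinearGroup.coe_mul]
      rfl
    rw [eh, e1, e2]
    cases b
    · rw [step_false_val]
      have c1 : (!![exp (-s / 2), 0; exp (-s / 2), exp (s / 2)] * M) 0 0 = exp (-s / 2) * M 0 0 := by
        simp [Matrix.mul_apply, Fin.sum_univ_two]
      have c2 : (!![exp (-s / 2), 0; exp (-s / 2), exp (s / 2)] * M) 0 1 = exp (-s / 2) * M 0 1 := by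
        simp [Matrix.mul_apply, Fin.sum_univ_two]
      have c3 : (!![exp (-s / 2), 0; exp (-s / 2), exp (s / 2)] * M) 1 0 =
          exp (-s / 2) * M 0 0 + exp (s / 2) * M 1 0 := by
        simp [Matrix.mul_apply, Fin.sum_univ_two]
      have c4 : (!![exp (-s / 2), 0; exp (-s / 2), exp (s / 2)] * M) 1 1 =
          exp (-s / 2) * M 0 1 + exp (s / 2) * M 1 1 := by
        simp [Matrix.mul_apply, Fin.sum_univ_two]
      rw [c1, c2, c3, c4]
      refine ⟨g1, by linarith, g4, by linarith, ?_, fun _ => by linarith, ?_⟩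
      · intro ht
        have : true ∈ w := by simpa using ht
        exact mul_pos hp1 (h5 this)
      · intro ht _
        have : true ∈ w := by simpa using ht
        have := mul_pos hp1 (h5 this)
        linarith
    · rw [step_true_val]
      have c1 : (!![exp (-s / 2), exp (s / 2); 0, exp (s / 2)] * M) 0 0 =
          exp (-s / 2) * M 0 0 + exp (s / 2) * M 1 0 := by
        simp [Matrix.mul_apply, Fin.sum_univ_two]
      have c2 : (!![exp (-s / 2), exp (s / 2); 0, exp (s / 2)] * M) 0 1 =
          exp (-s / 2) * M 0 1 + exp (s / 2) * M 1 1 := by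
        simp [Matrix.mul_apply, Fin.sum_univ_two]
      have c3 : (!![exp (-s / 2), exp (s / 2); 0, exp (s / 2)] * M) 1 0 = exp (s / 2) * M 1 0 := by
        simp [Matrix.mul_apply, Fin.sum_univ_two]
      have c4 : (!![exp (-s / 2), exp (s / 2); 0, exp (s / 2)] * M) 1 1 = exp (s / 2) * M 1 1 := by
        simp [Matrix.mul_apply, Fin.sum_univ_two]
      rw [c1, c2, c3, c4]
      refine ⟨by linarith, g2, by linarith, g3, fun _ => by linarith, ?_, ?_⟩
      · intro hf
        have : false ∈ w := by simpa using hf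
        exact mul_pos hp2 (h6 this)
      · intro _ hf
        have : false ∈ w := by simpa using hf
        have := mul_pos hp2 (h6 this)
        linarith

theorem tr_gt : S_tr := by
  intro D _ _ T x w d hw
  obtain ⟨_, h1, h2⟩ := hw
  obtain ⟨S, _, _, _, _, _, _, h3⟩ := hol_facts T x w d
  have h4 := h3 h1 h2
  have h5 : 2 ≤ exp (-S / 2) + exp (S / 2) := by
    have h6 : 0 < exp (S / 2) := exp_pos _
    have e : exp (-S / 2) = (exp (S / 2))⁻¹ := by rw [← exp_neg]; ring_nf
    rw [e]
    have h7 : (exp (S / 2))⁻¹ + exp (S / 2) - 2 = (exp (S / 2) - 1) ^ 2 / exp (S / 2) := by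
      field_simp
      ring
    have h8 : 0 ≤ (exp (S / 2) - 1) ^ 2 / exp (S / 2) := by positivity
    linarith
  unfold tr
  linarith

/-! ## S_pos -/

lemma snext_lt (T : Tri D) (c : D → ℕ) (hc : T.Match c) (v : D × ℕ) (hv : v.2 < T.num c v.1) :
    (T.snext c v).2 < T.num c (T.snext c v).1 := by
  unfold Tri.snext
  split_ifs with h
  · simp only
    rw [hc]
    unfold Tri.num
    rw [T.sg3]
    omega
  · simp only
    rw [hc]
    unfold Tri.num at hv ⊢
    omega

lemma snext_ge (T : Tri D) (c : D → ℕ) (v : D × ℕ) (h : c v.1 ≤ v.2) :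
    T.snext c v = (T.io (T.sg v.1), v.2 - c v.1 + c (T.sg (T.sg v.1))) := by
  unfold Tri.snext
  rw [if_neg (not_lt.2 h)]

lemma itin_not (T : Tri D) (c : D → ℕ) (b : Bool) (n : ℕ) : ∀ v : D × ℕ, b ∉ T.itin c n v →
    ∀ k < n, Tri.sbit c ((T.snext c)^[k] v) = !b := by
  induction n with
  | zero => intro v _ k hk; omega
  | succ n ih =>
    intro v hv k hk
    have e : T.itin c (n + 1) v = Tri.sbit c v :: T.itin c n (T.snext c v) := rfl
    rw [e, List.mem_cons, not_or] at hv
    rcases Nat.eq_zero_or_pos k with h0 | h0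
    · subst h0
      rw [Function.iterate_zero_apply]
      have := hv.1
      revert this
      cases b <;> cases Tri.sbit c v <;> simp
    · obtain ⟨j, rfl⟩ : ∃ j, k = j + 1 := ⟨k - 1, by omega⟩
      rw [Function.iterate_succ_apply]
      exact ih _ hv.2 j (by omega)

theorem pos_both (T : Tri D) (t : TD T) (d : D) (i : ℕ) (hi : i < T.num t.c d) (b : Bool) :
    b ∈ T.itin t.c t.P (d, i) := by
  by_contra hb
  have hP := t.hP
  have hper := t.per d i hi
  have h1 := itin_not T t.c b t.P (d, i) hb
  -- for all times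
  have hmod : ∀ k, (T.snext t.c)^[k] (d, i) = (T.snext t.c)^[k % t.P] (d, i) := by
    intro k
    have hf : Function.IsPeriodicPt (T.snext t.c) t.P (d, i) := hper
    exact (hf.iterate_mod_apply k).symm
  have h2 : ∀ k, Tri.sbit t.c ((T.snext t.c)^[k] (d, i)) = !b := by
    intro k
    rw [hmod k]
    exact h1 _ (Nat.mod_lt _ hP)
  cases b
  · -- all turns are `true`
    have hb' : ∀ k, t.c ((T.snext t.c)^[k] (d, i)).1 ≤ ((T.snext t.c)^[k] (d, i)).2 := by
      intro k
      have := h2 k
      unfold Tri.sbit at this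
      simpa using this
    have hlt : ∀ k, ((T.snext t.c)^[k] (d, i)).2 < T.num t.c ((T.snext t.c)^[k] (d, i)).1 := by
      intro k
      induction k with
      | zero => exact hi
      | succ k ih =>
        rw [Function.iterate_succ_apply']
        exact snext_lt T t.c t.hc _ ih
    -- the corner
    set f : ℕ → D := fun k => T.sg ((T.snext t.c)^[k] (d, i)).1 with hf
    have hs : ∀ k, (T.snext t.c)^[k + 1] (d, i) =
        (T.io (T.sg ((T.snext t.c)^[k] (d, i)).1), ((T.snext t.c)^[k] (d, i)).2 -
          t.c ((T.snext t.c)^[k] (d, i)).1 + t.c (T.sg (T.sg ((T.snext t.c)^[k] (d, i)).1))) := by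
      intro k
      rw [Function.iterate_succ_apply']
      exact snext_ge T t.c _ (hb' k)
    have hrho : ∀ k, T.rho (f (k + 1)) = f k := by
      intro k
      simp only [hf]
      rw [hs k]
      simp only
      unfold Tri.rho
      rw [T.sg3, T.io_io]
    have hpos : ∀ k, 0 < t.c (f k) := by
      intro k
      have a1 := hlt k
      have a2 := hb' k
      unfold Tri.num at a1
      simp only [hf]
      omega
    have hper' : ∀ k, f (k + t.P) = f k := by
      intro k
      simp only [hf]
      rw [Function.iterate_add_apply, hper]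
    have hper2 : ∀ j k, f (k + j * t.P) = f k := by
      intro j
      induction j with
      | zero => intro k; simp
      | succ j ih =>
        intro k
        rw [Nat.succ_mul, ← add_assoc, hper', ih]
    have hback : ∀ j k, T.rho^[j] (f (k + j)) = f k := by
      intro j
      induction j with
      | zero => intro k; rfl
      | succ j ih =>
        intro k
        rw [Function.iterate_succ_apply, ← add_assoc, hrho, ih]
    obtain ⟨j, hj⟩ := t.hn (f 0)
    have h3 : T.rho^[j] (f 0) = f (j * t.P - j) := by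
      rw [← hper2 j 0, zero_add]
      have h4 : j ≤ j * t.P := Nat.le_mul_of_pos_right j hP
      have h5 := hback j (j * t.P - j)
      rw [Nat.sub_add_cancel h4] at h5
      exact h5
    rw [h3] at hj
    have := hpos (j * t.P - j)
    omega
  · -- all turns are `false`
    have hb' : ∀ k, ((T.snext t.c)^[k] (d, i)).2 < t.c ((T.snext t.c)^[k] (d, i)).1 := by
      intro k
      have := h2 k
      unfold Tri.sbit at this
      simpa using this
    have hs : ∀ k, (T.snext t.c)^[k] (d, i) = (T.rho^[k] d, i) := by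
      intro k
      induction k with
      | zero => rfl
      | succ k ih =>
        have hk := hb' k
        rw [Function.iterate_succ_apply', ih]
        rw [ih] at hk
        unfold Tri.snext
        rw [if_pos hk, Function.iterate_succ_apply']
        rfl
    obtain ⟨j, hj⟩ := t.hn d
    have h3 := hb' j
    rw [hs j] at h3
    simp only at h3
    omega

theorem pos : S_pos := by
  intro D _ _ T t x d i hi
  have h1 := pos_both T t d i hi true
  have h2 := pos_both T t d i hi false
  refine ⟨h1, h2, ?_⟩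
  obtain ⟨S, h3, h4, _, _, h5, h6, _⟩ := hol_facts T x (T.itin t.c t.P (d, i)) d
  have h7 : 0 < exp (-S / 2) := exp_pos _
  have h8 : 0 < exp (S / 2) := exp_pos _
  intro a b
  unfold TD.str
  simp only
  fin_cases a <;> fin_cases b
  · exact lt_of_lt_of_le h7 h3
  · exact h5 h1
  · exact h6 h2
  · exact lt_of_lt_of_le h8 h4

end Run7.h544.DG
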